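import Mathlib

/-!
# Linear relations between roots of unity with coefficients in a finite-dimensional space
-/

set_option autoImplicit false

open Polynomial

namespace Pool.Agent.TH936.NF

/-- the roots of unity -/
def mu : Set ℂ := {z | ∃ n : ℕ, 0 < n ∧ z ^ n = 1}

/-- the maximal cyclotomic field -/
noncomputable def Kc : IntermediateField ℚ ℂ := IntermediateField.adjoin ℚ mu

lemma mu_mem {z : ℂ} {n : ℕ} (hn : 0 < n) (h : z ^ n = 1) : z ∈ Kc :=
  IntermediateField.subset_adjoin ℚ mu ⟨n, hn, h⟩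

lemma mu_int {z : ℂ} {n : ℕ} (hn : 0 < n) (h : z ^ n = 1) : IsIntegral ℚ z :=
  IsIntegral.of_pow hn (h ▸ isIntegral_one)

lemma Kc_int (x : Kc) : IsIntegral ℚ x := by
  have h : @Algebra.IsAlgebraic ℚ Kc _ _ (IntermediateField.algebra' Kc) := by
    unfold Kc
    rw [IntermediateField.isAlgebraic_adjoin_iff_isAlgebraic]
    rintro z ⟨n, hn, h⟩
    exact (mu_int hn h).isAlgebraic
  have h2 : @IsIntegral ℚ Kc _ _ (IntermediateField.algebra' Kc) x := (h.isAlgebraic x).isIntegral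
  have h3 : (IntermediateField.algebra' Kc : Algebra ℚ Kc) = DivisionRing.toRatAlgebra :=
    Subsingleton.elim _ _
  rwa [h3] at h2

/-- the level structure -/
noncomputable def Kl (M : ℕ) : IntermediateField ℚ ℂ :=
  IntermediateField.adjoin ℚ {z : ℂ | z ^ M = 1}

lemma Kl_mono {M M' : ℕ} (h : M ∣ M') : Kl M ≤ Kl M' := by
  refine IntermediateField.adjoin.mono _ _ _ ?_
  rintro z (hz : z ^ M = 1)
  obtain ⟨c, rfl⟩ := h
  show z ^ (M * c) = 1
  rw [pow_mul, hz, one_pow]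

lemma exists_level (x : ℂ) (hx : x ∈ Kc) : ∃ M : ℕ, 0 < M ∧ x ∈ Kl M := by
  obtain ⟨T, hT, hxT⟩ := IntermediateField.exists_finset_of_mem_adjoin hx
  choose n hn hn' using fun z : T => hT z.2
  refine ⟨∏ z : T, n z, Finset.prod_pos fun z _ => hn z, ?_⟩
  refine (IntermediateField.adjoin.mono ℚ (T : Set ℂ) _ ?_) hxT
  intro z hz
  show z ^ (∏ z : T, n z) = 1
  obtain ⟨c, hc⟩ : n ⟨z, hz⟩ ∣ ∏ z : T, n z := Finset.dvd_prod_of_mem _ (Finset.mem_univ _)
  rw [hc, pow_mul]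
  have h1 : z ^ n ⟨z, hz⟩ = 1 := hn' ⟨z, hz⟩
  rw [h1, one_pow]

lemma exists_sigma {D k : ℕ} (hD : 0 < D) (hk : Nat.Coprime k D) :
    ∃ σ : Kc →ₐ[ℚ] ℂ, ∀ (z : ℂ) (h : z ^ D = 1), σ ⟨z, mu_mem hD h⟩ = z ^ k := by
  have hp := Complex.isPrimitiveRoot_exp D hD.ne'
  set ζ : ℂ := Complex.exp (2 * Real.pi * Complex.I / D) with hζ
  have hζD : ζ ^ D = 1 := hp.pow_eq_one
  have hp2 : IsPrimitiveRoot (ζ ^ k) D := hp.pow_of_coprime k hk
  have h1 : minpoly ℚ (⟨ζ, mu_mem hD hζD⟩ : Kc) = cyclotomic D ℚ := by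
    rw [cyclotomic_eq_minpoly_rat hp hD]
    exact (minpoly.algebraMap_eq (B := Kc) (B' := ℂ) (algebraMap Kc ℂ).injective
      (⟨ζ, mu_mem hD hζD⟩ : Kc)).symm
  have h2 : aeval (ζ ^ k) (minpoly ℚ (⟨ζ, mu_mem hD hζD⟩ : Kc)) = 0 := by
    rw [h1, cyclotomic_eq_minpoly_rat hp2 hD]
    exact minpoly.aeval _ _
  obtain ⟨σ, hσ⟩ := IntermediateField.exists_algHom_of_splits_of_aeval (F := ℚ) (E := Kc)
    (K := ℂ) (fun s => ⟨Kc_int s, IsAlgClosed.splits _⟩) h2
  refine ⟨σ, fun z hz => ?_⟩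
  have : NeZero D := ⟨hD.ne'⟩
  obtain ⟨i, -, hi⟩ := hp.eq_pow_of_pow_eq_one hz
  have h3 : (⟨z, mu_mem hD hz⟩ : Kc) = (⟨ζ, mu_mem hD hζD⟩ : Kc) ^ i := by
    apply Subtype.ext
    rw [SubmonoidClass.mk_pow]
    exact hi.symm
  rw [h3, map_pow, hσ, ← hi, ← pow_mul, ← pow_mul, mul_comm]

lemma pow_mod_one {M k : ℕ} (hk : k % M = 1 % M) {z : ℂ} (hz : z ^ M = 1) : z ^ k = z := by
  have h1 : ∀ j : ℕ, z ^ j = z ^ (j % M) := by
    intro j
    conv_lhs => rw [← Nat.div_add_mod j M, pow_add, pow_mul, hz, one_pow, one_mul]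
  rw [h1 k, hk, ← h1 1, pow_one]

lemma sigma_fix {M : ℕ} (hM : Kl M ≤ Kc) (σ : Kc →ₐ[ℚ] ℂ)
    (h : ∀ (z : ℂ) (hz : z ^ M = 1) (hz' : z ∈ Kc), σ ⟨z, hz'⟩ = z) (x : ℂ) (hx : x ∈ Kl M) :
    σ ⟨x, hM hx⟩ = x := by
  have key : ∀ hx' : x ∈ Kc, σ ⟨x, hx'⟩ = x := by
    unfold Kl at hx
    induction hx using IntermediateField.adjoin_induction with
    | mem x hx => exact fun hx' => h x hx hx'
    | algebraMap x =>
      intro hx'
      have : (⟨algebraMap ℚ ℂ x, hx'⟩ : Kc) = algebraMap ℚ Kc x := rfl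
      rw [this, AlgHom.commutes]
    | add x y hx hy h1 h2 =>
      intro hx'
      have e : (⟨x + y, hx'⟩ : Kc) = ⟨x, hM hx⟩ + ⟨y, hM hy⟩ := rfl
      rw [e, map_add, h1, h2]
    | inv x hx h1 =>
      intro hx'
      have e : (⟨x⁻¹, hx'⟩ : Kc) = (⟨x, hM hx⟩ : Kc)⁻¹ := rfl
      rw [e, map_inv₀, h1]
    | mul x y hx hy h1 h2 =>
      intro hx'
      have e : (⟨x * y, hx'⟩ : Kc) = ⟨x, hM hx⟩ * ⟨y, hM hy⟩ := rfl
      rw [e, map_mul, h1, h2]
  exact key _

/-- **Relations between roots of unity with coefficients in a finite-dimensional space.** -/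
theorem galW (W : Submodule ℚ ℂ) (hW : W.FG) : ∃ M : ℕ, 0 < M ∧ ∀ (D k : ℕ), 0 < D →
    Nat.Coprime k D → k % M = 1 % M → ∀ (ι : Type) [Fintype ι] (z w : ι → ℂ),
    (∀ i, z i ^ D = 1) → (∀ i, w i ∈ W) → ∑ i, z i * w i = 0 → ∑ i, z i ^ k * w i = 0 := by
  obtain ⟨r, b, hb⟩ := Submodule.fg_iff_exists_fin_generating_family.1 hW
  let ev : (Fin r → Kc) →ₗ[Kc] ℂ :=
    { toFun := fun a => ∑ j, (a j : ℂ) * b j
      map_add' := by
        intro x y
        rw [← Finset.sum_add_distrib]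
        refine Finset.sum_congr rfl fun j _ => ?_
        rw [Pi.add_apply]
        push_cast
        ring
      map_smul' := by
        intro c x
        rw [RingHom.id_apply, Finset.smul_sum]
        refine Finset.sum_congr rfl fun j _ => ?_
        rw [Pi.smul_apply, smul_eq_mul]
        push_cast
        rw [Algebra.smul_def, mul_assoc]
        rfl }
  have hev : ∀ a, ev a = ∑ j, (a j : ℂ) * b j := fun a => rfl
  obtain ⟨s, v, hv⟩ := Submodule.fg_iff_exists_fin_generating_family.1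
    (IsNoetherian.noetherian (LinearMap.ker ev))
  choose m hm hm' using fun (p : Fin s × Fin r) => exists_level (v p.1 p.2 : ℂ) (v p.1 p.2).2
  set M : ℕ := ∏ p, m p with hM
  have hM0 : 0 < M := Finset.prod_pos fun p _ => hm p
  have hvM : ∀ l j, (v l j : ℂ) ∈ Kl M := fun l j =>
    Kl_mono (Finset.dvd_prod_of_mem _ (Finset.mem_univ (l, j))) (hm' (l, j))
  have hKM : Kl M ≤ Kc := by
    refine IntermediateField.adjoin.mono _ _ _ ?_
    rintro z (hz : z ^ M = 1)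
    exact ⟨M, hM0, hz⟩
  refine ⟨M, hM0, fun D k hD hk hkM ι _ z w hz hw h0 => ?_⟩
  have hkM' : Nat.Coprime k M := by
    have h1 : Nat.gcd k M = Nat.gcd 1 M := by
      rw [Nat.gcd_comm, Nat.gcd_comm 1, Nat.gcd_rec, Nat.gcd_rec M 1, hkM]
    rw [Nat.Coprime, h1, Nat.gcd_one_left]
  obtain ⟨σ, hσ⟩ := exists_sigma (Nat.mul_pos hD hM0) (Nat.Coprime.mul_right hk hkM')
  have hσM : ∀ x : ℂ, ∀ hx : x ∈ Kl M, σ ⟨x, hKM hx⟩ = x := by
    refine fun x hx => sigma_fix hKM σ (fun z hz hz' => ?_) x hx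
    have h1 : z ^ (D * M) = 1 := by rw [mul_comm, pow_mul, hz, one_pow]
    rw [hσ z h1]
    exact pow_mod_one hkM hz
  have hzD : ∀ i, z i ^ (D * M) = 1 := fun i => by rw [pow_mul, hz i, one_pow]
  have hc : ∀ i, ∃ c : Fin r → ℚ, ∑ j, c j • b j = w i := by
    intro i
    rw [← Submodule.mem_span_range_iff_exists_fun, hb]
    exact hw i
  choose c hc using hc
  let zz : ι → Kc := fun i => ⟨z i, mu_mem (Nat.mul_pos hD hM0) (hzD i)⟩
  let a : Fin r → Kc := fun j => ∑ i, ((c i j : ℚ) : Kc) * zz i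
  have ha : a ∈ LinearMap.ker ev := by
    rw [LinearMap.mem_ker, hev, ← h0]
    have e1 : ∀ j, ((a j : Kc) : ℂ) = ∑ i, (c i j : ℂ) * z i := by
      intro j
      simp only [a]
      push_cast
      rfl
    simp only [e1, Finset.sum_mul]
    rw [Finset.sum_comm]
    refine Finset.sum_congr rfl fun i _ => ?_
    rw [← hc i, Finset.mul_sum]
    refine Finset.sum_congr rfl fun j _ => ?_
    rw [Algebra.smul_def]
    have : (algebraMap ℚ ℂ) (c i j) = (c i j : ℂ) := rfl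
    rw [this]
    ring
  rw [← hv, Submodule.mem_span_range_iff_exists_fun] at ha
  obtain ⟨e, he⟩ := ha
  have hvk : ∀ l, ∑ j, (v l j : ℂ) * b j = 0 := by
    intro l
    have h1 : v l ∈ LinearMap.ker ev := by
      rw [← hv]
      exact Submodule.subset_span ⟨l, rfl⟩
    rw [← hev]
    exact h1
  have h3 : ∑ j, σ (a j) * b j = 0 := by
    have e1 : ∀ j, σ (a j) = ∑ l, σ (e l) * (v l j : ℂ) := by
      intro j
      rw [← he, Finset.sum_apply, map_sum]
      refine Finset.sum_congr rfl fun l _ => ?_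
      rw [Pi.smul_apply, smul_eq_mul, map_mul]
      congr 1
      exact hσM _ (hvM l j)
    simp only [e1, Finset.sum_mul]
    rw [Finset.sum_comm]
    refine Finset.sum_eq_zero fun l _ => ?_
    simp only [mul_assoc]
    rw [← Finset.mul_sum, hvk l, mul_zero]
  rw [← h3]
  have e2 : ∀ j, σ (a j) = ∑ i, (c i j : ℂ) * z i ^ k := by
    intro j
    simp only [a]
    rw [map_sum]
    refine Finset.sum_congr rfl fun i _ => ?_
    rw [map_mul, map_ratCast, hσ (z i) (hzD i)]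
  simp only [e2, Finset.sum_mul]
  rw [Finset.sum_comm]
  refine Finset.sum_congr rfl fun i _ => ?_
  rw [← hc i, Finset.mul_sum]
  refine Finset.sum_congr rfl fun j _ => ?_
  rw [Algebra.smul_def]
  have : (algebraMap ℚ ℂ) (c i j) = (c i j : ℂ) := rfl
  rw [this]
  ring

end Pool.Agent.TH936.NF
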